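import Pool.Agent.Helper30.QVMain

/-!
MP_7a870e_al, Q1: a quasivariety `K` (of finite signature) such that the lattice of subquasivarieties
of every quasivariety of finite signature is a sublattice of `L_q(K)`.
-/

set_option autoImplicit false

universe u v w

open Pool.Agent.Helper30.QV

/-- There are a finite signature `L₀` and a quasivariety `K` of algebraic systems of signature `L₀`
(namely the class of all of them) such that, for every quasivariety `M` of finite signature, the
lattice `L_q(M)` of all subquasivarieties of `M` embeds (by an injective lattice homomorphism)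
into `L_q(K)`. -/
theorem Pool.Agent.Results.MP_7a870e_al.UniversalQuasivariety.result :
    ∃ (L₀ : FirstOrder.Language.{0, 0}) (_ : Finite L₀.Symbols) (K : Quasivariety.{u} L₀),
      (∀ A : Sys.{u} L₀, A ∈ K.1) ∧
      ∀ (L : FirstOrder.Language.{v, w}), Finite L.Symbols →
        ∀ M : Quasivariety.{u} L,
          ∃ f : LatticeHom (Lq M) (Lq K), Function.Injective f := by
  obtain ⟨K, hK⟩ := main.{u, v, w}
  exact ⟨L0, inferInstance, K, hK⟩
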